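import Pool.Agent.MP_7afc88_an.Mg.Main

open MeasureTheory

namespace Pool.Agent.Results.MP_7afc88_an.ChainRule

open Pool.Agent.MP_7afc88_an

theorem result (N : ℕ) (Ω : Set (EuclideanSpace ℝ (Fin N))) (hΩ : IsOpen Ω)
    (Φ : ℝ → ℝ) (hΦ : ConvexOn ℝ Set.univ Φ) (L : NNReal) (hL : LipschitzWith L Φ)
    (u f g : EuclideanSpace ℝ (Fin N) → ℝ)
    (hu : IntegrableOn u Ω volume) (hf : IntegrableOn f Ω volume) (hg : IntegrableOn g Ω volume)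
    (h1 : IsWeakLaplacian Ω u f) (h2 : IsWeakLaplacian Ω (fun x => Φ (u x)) g) :
    (∃ G, IsWeakGradient Ω u G) ∧
    ∀ G, IsWeakGradient Ω u G → ∀ᵐ x ∂(volume.restrict Ω), ∃ A B : ℝ,
      ((f x = 0 ∧ A = 0) ∨ (f x ≠ 0 ∧ ∃ d : ℝ, HasDerivAt Φ d (u x) ∧ A = d * f x)) ∧
      ((G x = 0 ∧ B = 0) ∨ (G x ≠ 0 ∧ ∃ a : ℝ, HasSecondDerivAt Φ a (u x) ∧ B = a * ‖G x‖ ^ 2)) ∧
      g x = A + B :=
  ⟨exists_weakGradient hΩ hu hf h1, fun _ hG => chain_rule hΩ hu hf hg hΦ hL h1 h2 hG⟩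

end Pool.Agent.Results.MP_7afc88_an.ChainRule
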